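import Mathlib
import Pool.Agent.W455.EM.Stm

/-!
# Project EM, part LOW: the lower bound construction
-/

set_option autoImplicit false

namespace Pool.Agent.W561.EM.LOW

open Finset Pool.Agent.FracEM.PMT Pool.Agent.W455.EM

theorem main : S_LOW := by
  intro k n hk hkn hn
  obtain ⟨q, rfl⟩ := hkn
  have hk0 : 0 < k := by omega
  have hq : 0 < q := by
    rcases Nat.eq_zero_or_pos q with h0 | h0
    · subst h0; simp at hn
    · exact h0
  have hdiv : k * q / k = q := Nat.mul_div_cancel_left q hk0
  rw [hdiv]
  have hqn : q ≤ k * q := Nat.le_mul_of_pos_left q hk0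
  obtain ⟨S, -, hS⟩ := Finset.exists_subset_card_eq (s := (univ : Finset (Fin (k * q))))
    (n := q - 1) (by rw [card_univ, Fintype.card_fin]; omega)
  refine ⟨(univ.powersetCard k).filter (fun e => ¬ Disjoint e S), ?_, ?_, ?_⟩
  · intro e he
    exact (mem_powersetCard.mp (mem_filter.mp he).1).2
  · intro v
    set P := (univ.erase v).powersetCard (k - 1) with hP
    have hPc : P.card = (k * q - 1).choose (k - 1) := by
      rw [hP, card_powersetCard, card_erase_of_mem (mem_univ v), card_univ, Fintype.card_fin]
    have hsplit := Finset.card_filter_add_card_filter_not (s := P)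
      (fun T => ¬ Disjoint (insert v T) S)
    have h1 : (P.filter (fun T => ¬ Disjoint (insert v T) S)).card ≤
        deg ((univ.powersetCard k).filter (fun e => ¬ Disjoint e S)) v := by
      unfold deg
      apply Finset.card_le_card_of_injOn (fun T => insert v T)
      · intro T hT
        have hT' := mem_filter.mp (Finset.mem_coe.mp hT)
        have hT2 := mem_powersetCard.mp hT'.1
        have hvT : v ∉ T := fun h => (Finset.mem_erase.mp (hT2.1 h)).1 rfl
        apply Finset.mem_coe.mpr
        refine mem_filter.mpr ⟨mem_filter.mpr ⟨mem_powersetCard.mpr ⟨subset_univ _, ?_⟩, hT'.2⟩,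
          mem_insert_self _ _⟩
        rw [card_insert_of_notMem hvT, hT2.2]
        omega
      · intro T hT T' hT' hTT
        have a1 := mem_powersetCard.mp (mem_filter.mp (Finset.mem_coe.mp hT)).1
        have a2 := mem_powersetCard.mp (mem_filter.mp (Finset.mem_coe.mp hT')).1
        have b1 : v ∉ T := fun h => (Finset.mem_erase.mp (a1.1 h)).1 rfl
        have b2 : v ∉ T' := fun h => (Finset.mem_erase.mp (a2.1 h)).1 rfl
        have hTT' : insert v T = insert v T' := hTT
        rw [← erase_insert b1, hTT', erase_insert b2]
    have h2 : (P.filter (fun T => ¬ ¬ Disjoint (insert v T) S)).card ≤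
        (k * q - q).choose (k - 1) := by
      by_cases hv : v ∈ S
      · have : P.filter (fun T => ¬ ¬ Disjoint (insert v T) S) = ∅ := by
          apply Finset.filter_eq_empty_iff.mpr
          intro T _ hT
          exact (Finset.disjoint_left.mp (not_not.mp hT) (mem_insert_self v T)) hv
        rw [this]; simp
      · have hsub : P.filter (fun T => ¬ ¬ Disjoint (insert v T) S) ⊆
            ((univ \ insert v S).powersetCard (k - 1)) := by
          intro T hT
          have hT' := mem_filter.mp hT
          have hT2 := mem_powersetCard.mp hT'.1
          refine mem_powersetCard.mpr ⟨?_, hT2.2⟩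
          intro x hx
          have hd := not_not.mp hT'.2
          refine mem_sdiff.mpr ⟨mem_univ _, ?_⟩
          intro hxS
          rcases mem_insert.mp hxS with rfl | hxS
          · exact (Finset.mem_erase.mp (hT2.1 hx)).1 rfl
          · exact (Finset.disjoint_left.mp hd (mem_insert_of_mem hx)) hxS
        refine (card_le_card hsub).trans (le_of_eq ?_)
        rw [card_powersetCard, card_sdiff_of_subset (subset_univ _), card_univ, Fintype.card_fin,
          card_insert_of_notMem hv, hS]
        congr 1
        omega
    omega
  · rintro ⟨M, hM, hdis, hU⟩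
    have hpw : (M : Set (Finset (Fin (k * q)))).PairwiseDisjoint id := by
      intro e he e' he' hne
      exact hdis e he e' he' hne
    have hc : (M.biUnion id).card = ∑ e ∈ M, (id e).card := card_biUnion hpw
    have hc2 : ∑ e ∈ M, (id e).card = M.card * k := by
      apply Finset.sum_const_nat
      intro e he
      exact (mem_powersetCard.mp (mem_filter.mp (hM he)).1).2
    rw [hU, card_univ, Fintype.card_fin, hc2] at hc
    have hMq : M.card = q := by
      have : k * q = k * M.card := hc.trans (Nat.mul_comm _ _)
      exact (Nat.eq_of_mul_eq_mul_left hk0 this).symm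
    have h3 : M.card ≤ ∑ e ∈ M, (e ∩ S).card := by
      rw [card_eq_sum_ones]
      apply Finset.sum_le_sum
      intro e he
      have := (mem_filter.mp (hM he)).2
      rw [Nat.one_le_iff_ne_zero]
      intro h0
      exact this (Finset.disjoint_iff_inter_eq_empty.mpr (card_eq_zero.mp h0))
    have h4 : ∑ e ∈ M, (e ∩ S).card ≤ S.card := by
      rw [← card_biUnion]
      · apply card_le_card
        intro x hx
        obtain ⟨e, _, hx⟩ := mem_biUnion.mp hx
        exact (mem_inter.mp hx).2
      · intro e he e' he' hne
        exact (hdis e he e' he' hne).mono inter_subset_left inter_subset_left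
    omega

end Pool.Agent.W561.EM.LOW
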